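import Mathlib

/-!
# Frobenius partitions: definitions and a criterion
-/

namespace Pool.Agent.Q93.FP

/-- `A` is malnormal: `γ⁻¹ A γ ∩ A = 1` for every `γ ∉ A`. -/
def Malnormal {Γ : Type*} [Group Γ] (A : Subgroup Γ) : Prop :=
  ∀ γ : Γ, γ ∉ A → ∀ x ∈ A, γ⁻¹ * x * γ ∈ A → γ⁻¹ * x * γ = 1

/-- `{N} ∪ 𝒜` is a Frobenius partition of the group `Γ`: every non-identity element lies in exactly
one member, `N` is normal, and the members of `𝒜` are malnormal with all conjugates in `𝒜`. -/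
structure IsFrobeniusPartition {Γ : Type*} [Group Γ] (N : Subgroup Γ) (𝒜 : Set (Subgroup Γ)) :
    Prop where
  partition : ∀ g : Γ, g ≠ 1 → ∃! B : Subgroup Γ, B ∈ insert N 𝒜 ∧ g ∈ B
  normal : N.Normal
  malnormal : ∀ A ∈ 𝒜, Malnormal A
  conj : ∀ A ∈ 𝒜, ∀ γ : Γ, A.map (MulAut.conj γ⁻¹).toMonoidHom ∈ 𝒜

/-- The partition contains at least two nontrivial subgroups. -/
def IsNontrivial {Γ : Type*} [Group Γ] (N : Subgroup Γ) (𝒜 : Set (Subgroup Γ)) : Prop :=
  ∃ B ∈ insert N 𝒜, ∃ C ∈ insert N 𝒜, B ≠ C ∧ B ≠ ⊥ ∧ C ≠ ⊥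

variable {Γ : Type*} [Group Γ]

/-- The family of the centralizers of the elements outside `N`. -/
def cents (N : Subgroup Γ) : Set (Subgroup Γ) :=
  {A | ∃ g : Γ, g ∉ N ∧ A = Subgroup.centralizer {g}}

theorem mem_cent {g x : Γ} : x ∈ Subgroup.centralizer {g} ↔ x * g = g * x :=
  Subgroup.mem_centralizer_singleton_iff

theorem frobenius_of (N : Subgroup Γ) [hN : N.Normal]
    (hA : ∀ g ∉ N, ∀ x ∈ N, x * g = g * x → x = 1)
    (hB : ∀ a ∉ N, ∀ b ∉ N, ∀ c ∉ N, a * b = b * a → b * c = c * b → a * c = c * a)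
    (hC : ∀ g ∉ N, ∀ h ∉ N, h * g = g * h → ∀ x, (x⁻¹ * h * x) * g = g * (x⁻¹ * h * x) →
      x * g = g * x) : IsFrobeniusPartition N (cents N) where
  normal := hN
  partition := by
    intro y hy
    by_cases hyN : y ∈ N
    · refine ⟨N, ⟨Set.mem_insert _ _, hyN⟩, ?_⟩
      rintro B ⟨hB1, hB2⟩
      rcases hB1 with rfl | ⟨g, hg, rfl⟩
      · rfl
      · exact absurd (hA g hg y hyN (mem_cent.1 hB2)) hy
    · refine ⟨Subgroup.centralizer {y}, ⟨Set.mem_insert_of_mem _ ⟨y, hyN, rfl⟩,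
        mem_cent.2 rfl⟩, ?_⟩
      rintro B ⟨hB1, hB2⟩
      rcases hB1 with rfl | ⟨g, hg, rfl⟩
      · exact absurd hB2 hyN
      · have hyg := mem_cent.1 hB2
        ext x
        rw [mem_cent, mem_cent]
        constructor
        · intro hx
          by_cases hxN : x ∈ N
          · rw [hA g hg x hxN hx]; simp
          · exact hB x hxN g hg y hyN hx hyg.symm
        · intro hx
          by_cases hxN : x ∈ N
          · rw [hA y hyN x hxN hx]; simp
          · exact hB x hxN y hyN g hg hx hyg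
  malnormal := by
    rintro _ ⟨g, hg, rfl⟩ γ hγ x hx hx'
    by_contra hne
    have hx1 : x ≠ 1 := by
      rintro rfl
      apply hne; group
    have hxN : x ∉ N := fun h => hx1 (hA g hg x h (mem_cent.1 hx))
    exact hγ (mem_cent.2 (hC g hg x hxN (mem_cent.1 hx) γ (mem_cent.1 hx')))
  conj := by
    rintro _ ⟨g, hg, rfl⟩ γ
    refine ⟨γ⁻¹ * g * γ, ?_, ?_⟩
    · intro h
      apply hg
      have := hN.conj_mem _ h γ
      have h2 : γ * (γ⁻¹ * g * γ) * γ⁻¹ = g := by group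
      rwa [h2] at this
    · ext x
      rw [mem_cent, Subgroup.mem_map]
      constructor
      · rintro ⟨y, hy, rfl⟩
        rw [mem_cent] at hy
        change γ⁻¹ * y * γ⁻¹⁻¹ * (γ⁻¹ * g * γ) = γ⁻¹ * g * γ * (γ⁻¹ * y * γ⁻¹⁻¹)
        have h1 : γ⁻¹ * y * γ⁻¹⁻¹ * (γ⁻¹ * g * γ) = γ⁻¹ * (y * g) * γ := by group
        rw [h1, hy]; group
      · intro hx
        refine ⟨γ * x * γ⁻¹, ?_, ?_⟩
        · rw [mem_cent]
          have h1 : γ * x * γ⁻¹ * g = γ * (x * (γ⁻¹ * g * γ)) * γ⁻¹ := by group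
          rw [h1, hx]; group
        · change γ⁻¹ * (γ * x * γ⁻¹) * γ⁻¹⁻¹ = x
          group

end Pool.Agent.Q93.FP
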