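import Pool.Agent.Q93.FP.Defs
import Pool.Agent.Helper180.FreeMetric

/-!
# Frobenius partitions of the free group of rank two
-/

namespace Pool.Agent.Q93.FP

open FreeGroup (of)

abbrev F : Type := FreeGroup (Fin 2)

theorem cent_cyclic (h : F) (h1 : h ≠ 1) :
    ∃ g : F, g ≠ 1 ∧ ∀ x, x * h = h * x ↔ ∃ n : ℤ, x = g ^ n := by
  obtain ⟨g, hg, hx⟩ := Helper180.FreeMetric.centralizer_cyclic h h1
  refine ⟨g, ?_, fun x => ⟨hx x, ?_⟩⟩
  · rintro rfl
    obtain ⟨n, hn⟩ := hx h rfl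
    rw [one_zpow] at hn
    exact h1 hn
  · rintro ⟨n, rfl⟩
    exact (Commute.zpow_left hg n)

theorem zpow_ne_one {x : F} (hx : x ≠ 1) {n : ℤ} (hn : n ≠ 0) : x ^ n ≠ 1 := by
  intro h
  apply hx
  have h1 : x ^ n.natAbs = 1 := by
    rcases Int.natAbs_eq n with h2 | h2
    · rw [h2, zpow_natCast] at h; simpa using h
    · rw [h2, zpow_neg, zpow_natCast, inv_eq_one] at h; simpa using h
  have h2 : x ^ n.natAbs = (1 : F) ^ n.natAbs := by rw [h1, one_pow]
  exact pow_left_injective (Int.natAbs_ne_zero.2 hn) h2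

/-- Commutation is transitive on nontrivial elements. -/
theorem ct {a b c : F} (hb : b ≠ 1) (h1 : a * b = b * a) (h2 : b * c = c * b) :
    a * c = c * a := by
  obtain ⟨g, -, hg⟩ := cent_cyclic b hb
  obtain ⟨n, rfl⟩ := (hg a).1 h1
  obtain ⟨m, rfl⟩ := (hg c).1 h2.symm
  rw [← zpow_add, ← zpow_add, add_comm]

theorem malnormal_aux {g h x : F} (hg : g ≠ 1) (hh : h ≠ 1) (h1 : h * g = g * h)
    (h2 : (x⁻¹ * h * x) * g = g * (x⁻¹ * h * x)) : x * g = g * x := by
  obtain ⟨r, hr, hr'⟩ := cent_cyclic g hg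
  have hk : x⁻¹ * h * x ≠ 1 := by
    intro h3
    apply hh
    have : h = x * (x⁻¹ * h * x) * x⁻¹ := by group
    rw [this, h3]; group
  have hrg : r * g = g * r := (hr' r).2 ⟨1, by simp⟩
  have hrh : r * h = h * r := ct hg hrg h1.symm
  have hrk : r * (x⁻¹ * h * x) = (x⁻¹ * h * x) * r := ct hg hrg h2.symm
  -- conjugate of `r` commutes with `r`
  have h3 : (x⁻¹ * r * x) * (x⁻¹ * h * x) = (x⁻¹ * h * x) * (x⁻¹ * r * x) := by
    have e1 : (x⁻¹ * r * x) * (x⁻¹ * h * x) = x⁻¹ * (r * h) * x := by group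
    rw [e1, hrh]; group
  have h4 : (x⁻¹ * r * x) * g = g * (x⁻¹ * r * x) := ct hk h3 h2
  obtain ⟨n, hn⟩ := (hr' _).1 h4
  -- symmetric statement
  have h5 : (x * r * x⁻¹) * h = h * (x * r * x⁻¹) := by
    have e1 : (x * r * x⁻¹) * h = x * (r * (x⁻¹ * h * x)) * x⁻¹ := by group
    rw [e1, hrk]; group
  have h6 : (x * r * x⁻¹) * g = g * (x * r * x⁻¹) := ct hh h5 h1
  obtain ⟨m, hm⟩ := (hr' _).1 h6
  have h7 : r = r ^ (n * m) := by
    have e1 : r = x⁻¹ * (x * r * x⁻¹) * x := by group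
    have e2 : x⁻¹ * r ^ m * x = (x⁻¹ * r * x) ^ m := by
      have := conj_zpow (a := x⁻¹) (b := r) (i := m)
      simp only [inv_inv] at this
      exact this.symm
    rw [zpow_mul, ← hn, ← e2, ← hm]
    exact e1
  have h8 : n * m = 1 := by
    by_contra hne
    have : r ^ (n * m - 1) = 1 := by
      rw [zpow_sub, ← h7, zpow_one, mul_inv_cancel]
    exact zpow_ne_one hr (by omega) this
  rcases Int.eq_one_or_neg_one_of_mul_eq_one h8 with rfl | rfl
  · -- `x` commutes with `r`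
    have h9 : x * r = r * x := by
      rw [zpow_one] at hn
      have : x * (x⁻¹ * r * x) = x * r := by rw [hn]
      rw [← this]; group
    exact ct hr h9 hrg
  · exfalso
    -- `x ^ 2` commutes with `r`
    have h9 : x⁻¹ * r * x = r⁻¹ := by rw [hn]; simp
    have h10 : (x * x) * r = r * (x * x) := by
      have e1 : x * r⁻¹ = r * x := by rw [← h9]; group
      have e2 : x * r = r⁻¹ * x := by
        have : r * (x * r) = r * (r⁻¹ * x) := by
          rw [← mul_assoc, ← e1]; group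
        exact mul_left_cancel this
      rw [mul_assoc, e2, ← mul_assoc, e1, mul_assoc]
    have hx : x ≠ 1 := by
      rintro rfl
      have : r ^ (2 : ℤ) = 1 := by
        have h11 : r = r⁻¹ := by simpa using h9
        rw [zpow_two]; nth_rewrite 1 [h11]; simp
      exact zpow_ne_one hr (by norm_num) this
    have hxx : x * x ≠ 1 := by
      have := zpow_ne_one hx (n := 2) (by norm_num)
      rwa [zpow_two] at this
    have h11 : x * r = r * x := ct hxx (by group) h10
    have h12 : r = r⁻¹ := by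
      rw [← h9, mul_assoc, ← h11]; group
    have : r ^ (2 : ℤ) = 1 := by
      rw [zpow_two]; nth_rewrite 1 [h12]; simp
    exact zpow_ne_one hr (by norm_num) this

/-- Kernels of homomorphisms to torsion-free groups give Frobenius partitions of `F`. -/
theorem frobenius_ker {A : Type*} [Group A] (φ : F →* A)
    (hA : ∀ (a : A) (n : ℤ), n ≠ 0 → a ^ n = 1 → a = 1) :
    IsFrobeniusPartition φ.ker (cents φ.ker) := by
  apply frobenius_of
  · intro g hg x hx hxg
    have hg1 : g ≠ 1 := fun h => hg (h ▸ φ.ker.one_mem)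
    obtain ⟨r, hr, hr'⟩ := cent_cyclic g hg1
    obtain ⟨n, rfl⟩ := (hr' x).1 hxg
    obtain ⟨m, hm⟩ := (hr' g).1 rfl
    by_cases hn : n = 0
    · rw [hn, zpow_zero]
    · exfalso
      rw [MonoidHom.mem_ker, map_zpow] at hx
      have := hA _ n hn hx
      apply hg
      rw [hm, MonoidHom.mem_ker, map_zpow, this, one_zpow]
  · intro a _ b hb c _ h1 h2
    exact ct (fun h => hb (by rw [h]; exact φ.ker.one_mem)) h1 h2
  · intro g hg h hh h1 x h2
    exact malnormal_aux (fun h' => hg (by rw [h']; exact φ.ker.one_mem))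
      (fun h' => hh (by rw [h']; exact φ.ker.one_mem)) h1 h2

/-- The abelianization map. -/
def φ₁ : F →* Multiplicative (ℤ × ℤ) :=
  FreeGroup.lift (fun i => Multiplicative.ofAdd (if i = 0 then (1, 0) else (0, 1)))

/-- The map killing the second generator. -/
def φ₂ : F →* Multiplicative ℤ :=
  FreeGroup.lift (fun i => Multiplicative.ofAdd (if i = 0 then 1 else 0))

theorem φ₁_zero : φ₁ (of 0) = Multiplicative.ofAdd (1, 0) := by simp [φ₁]
theorem φ₁_one : φ₁ (of 1) = Multiplicative.ofAdd (0, 1) := by simp [φ₁]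
theorem φ₂_zero : φ₂ (of 0) = Multiplicative.ofAdd 1 := by simp [φ₂]
theorem φ₂_one : φ₂ (of 1) = 1 := by simp [φ₂]

theorem fro1 : IsFrobeniusPartition φ₁.ker (cents φ₁.ker) := by
  apply frobenius_ker
  intro a n hn ha
  have h := congrArg Multiplicative.toAdd ha
  rw [toAdd_zpow, toAdd_one] at h
  apply Multiplicative.toAdd.injective
  rw [toAdd_one]
  exact (smul_eq_zero.1 h).resolve_left hn

theorem fro2 : IsFrobeniusPartition φ₂.ker (cents φ₂.ker) := by
  apply frobenius_ker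
  intro a n hn ha
  have h := congrArg Multiplicative.toAdd ha
  rw [toAdd_zpow, toAdd_one] at h
  apply Multiplicative.toAdd.injective
  rw [toAdd_one]
  exact (smul_eq_zero.1 h).resolve_left hn

theorem gen_not_mem1 : (of 0 : F) ∉ φ₁.ker := by
  rw [MonoidHom.mem_ker, φ₁_zero]
  intro h
  have := congrArg Multiplicative.toAdd h
  simp at this

theorem gen_not_mem1' : (of 1 : F) ∉ φ₁.ker := by
  rw [MonoidHom.mem_ker, φ₁_one]
  intro h
  have := congrArg Multiplicative.toAdd h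
  simp at this

theorem gen_not_mem2 : (of 0 : F) ∉ φ₂.ker := by
  rw [MonoidHom.mem_ker, φ₂_zero]
  intro h
  have := congrArg Multiplicative.toAdd h
  simp at this

theorem ker1_ne_bot : φ₁.ker ≠ ⊥ := by
  intro h
  have h1 : (of 0 * of 1 * (of 0)⁻¹ * (of 1)⁻¹ : F) ∈ φ₁.ker := by
    rw [MonoidHom.mem_ker]
    simp only [_root_.map_mul, _root_.map_inv]
    rw [mul_comm (φ₁ (of 0)) (φ₁ (of 1))]
    group
  rw [h, Subgroup.mem_bot] at h1
  have h2 : (of 0 * of 1 : F) = of 1 * of 0 := by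
    have : (of 0 * of 1 : F) = (of 0 * of 1 * (of 0)⁻¹ * (of 1)⁻¹) * (of 1 * of 0) := by group
    rw [this, h1, one_mul]
  have h3 := congrArg FreeGroup.toWord h2
  revert h3
  decide

theorem ker2_ne_bot : φ₂.ker ≠ ⊥ := by
  intro h
  have h1 : (of 1 : F) ∈ φ₂.ker := by rw [MonoidHom.mem_ker, φ₂_one]
  rw [h, Subgroup.mem_bot] at h1
  have h3 := congrArg FreeGroup.toWord h1
  revert h3
  decide

theorem ker_ne : φ₁.ker ≠ φ₂.ker := by
  intro h
  have h1 : (of 1 : F) ∈ φ₂.ker := by rw [MonoidHom.mem_ker, φ₂_one]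
  rw [← h] at h1
  exact gen_not_mem1' h1

theorem nontriv {N : Subgroup F} (hN : N ≠ ⊥) (h0 : (of 0 : F) ∉ N) :
    IsNontrivial N (cents N) := by
  have hc : (of 0 : F) ∈ Subgroup.centralizer {(of 0 : F)} := mem_cent.2 rfl
  refine ⟨N, Set.mem_insert _ _, Subgroup.centralizer {(of 0 : F)},
    Set.mem_insert_of_mem _ ⟨of 0, h0, rfl⟩, ?_, hN, ?_⟩
  · intro h
    rw [h] at h0
    exact h0 hc
  · intro h
    rw [h, Subgroup.mem_bot] at hc
    rw [hc] at h0
    exact h0 N.one_mem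

theorem no_complement : ∀ A ∈ cents φ₁.ker, φ₁.ker ⊔ A ≠ ⊤ := by
  rintro _ ⟨g, hg, rfl⟩ htop
  have hg1 : g ≠ 1 := fun h => hg (h ▸ φ₁.ker.one_mem)
  obtain ⟨r, hr, hr'⟩ := cent_cyclic g hg1
  have key : ∀ y : F, ∃ n : ℤ, φ₁ y = (φ₁ r) ^ n := by
    intro y
    have hy : y ∈ φ₁.ker ⊔ Subgroup.centralizer {g} := by rw [htop]; trivial
    obtain ⟨a, ha, b, hb, rfl⟩ := Subgroup.mem_sup_of_normal_left.1 hy
    obtain ⟨n, rfl⟩ := (hr' b).1 (mem_cent.1 hb)
    refine ⟨n, ?_⟩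
    rw [map_mul, MonoidHom.mem_ker.1 ha, one_mul, map_zpow]
  obtain ⟨n, hn⟩ := key (of 0)
  obtain ⟨m, hm⟩ := key (of 1)
  rw [φ₁_zero] at hn
  rw [φ₁_one] at hm
  have h1 := congrArg Multiplicative.toAdd hn
  have h2 := congrArg Multiplicative.toAdd hm
  rw [toAdd_zpow, toAdd_ofAdd] at h1 h2
  rcases hab : Multiplicative.toAdd (φ₁ r) with ⟨a, b⟩
  rw [hab] at h1 h2
  simp only [Prod.smul_mk, smul_eq_mul, Prod.mk.injEq] at h1 h2
  obtain ⟨h3, h4⟩ := h1
  obtain ⟨h5, h6⟩ := h2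
  have hn0 : n ≠ 0 := by rintro rfl; simp at h3
  have hb : b = 0 := by
    rcases mul_eq_zero.1 h4.symm with h | h
    · exact absurd h hn0
    · exact h
  rw [hb, mul_zero] at h6
  exact one_ne_zero h6

end Pool.Agent.Q93.FP
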