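import Pool.Agent.Q93.FP.Defs

/-!
# The affine group of the Gaussian integers
-/

namespace Pool.Agent.Q93.FP

/-- The affine group of the Gaussian integers: the maps `x ↦ a x + b`, `a` a unit. -/
@[ext] structure Aff where
  /-- the linear part -/
  a : GaussianIntˣ
  /-- the translation part -/
  b : GaussianInt

namespace Aff

instance : Mul Aff := ⟨fun x y => ⟨x.a * y.a, x.b + x.a * y.b⟩⟩
instance : One Aff := ⟨⟨1, 0⟩⟩
instance : Inv Aff := ⟨fun x => ⟨x.a⁻¹, -((x.a⁻¹ : GaussianIntˣ) : GaussianInt) * x.b⟩⟩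

theorem mul_a (x y : Aff) : (x * y).a = x.a * y.a := rfl
theorem mul_b (x y : Aff) : (x * y).b = x.b + x.a * y.b := rfl
theorem one_a : (1 : Aff).a = 1 := rfl
theorem one_b : (1 : Aff).b = 0 := rfl
theorem inv_a (x : Aff) : (x⁻¹).a = x.a⁻¹ := rfl
theorem inv_b (x : Aff) : (x⁻¹).b = -((x.a⁻¹ : GaussianIntˣ) : GaussianInt) * x.b := rfl

instance : Group Aff where
  mul_assoc x y z := by
    ext1
    · simp only [mul_a, mul_assoc]
    · simp only [mul_b, mul_a, Units.val_mul]; ring
  one_mul x := by
    ext1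
    · simp only [mul_a, one_a, one_mul]
    · simp only [mul_b, one_a, one_b]; simp
  mul_one x := by
    ext1
    · simp only [mul_a, one_a, mul_one]
    · simp only [mul_b, one_b]; simp
  inv_mul_cancel x := by
    ext1
    · simp only [mul_a, inv_a, one_a, inv_mul_cancel]
    · simp only [mul_b, inv_b, inv_a, one_b]; ring

/-- The linear part as a homomorphism. -/
def lin : Aff →* GaussianIntˣ where
  toFun := Aff.a
  map_one' := rfl
  map_mul' _ _ := rfl

/-- The translations. -/
def T : Subgroup Aff := lin.ker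

theorem mem_T {x : Aff} : x ∈ T ↔ x.a = 1 := Iff.rfl

instance : T.Normal := by unfold T; infer_instance

theorem comm_iff {x y : Aff} :
    x * y = y * x ↔ (1 - (y.a : GaussianInt)) * x.b = (1 - (x.a : GaussianInt)) * y.b := by
  rw [Aff.ext_iff, mul_a, mul_a, mul_b, mul_b]
  constructor
  · rintro ⟨-, h⟩
    linear_combination h
  · intro h
    exact ⟨mul_comm _ _, by linear_combination h⟩

theorem sub_ne_zero' {x : Aff} (hx : x ∉ T) : (1 - (x.a : GaussianInt)) ≠ 0 := by
  intro h
  apply hx
  rw [mem_T]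
  ext1
  rw [Units.val_one]
  exact (sub_eq_zero.1 h).symm

theorem fro : IsFrobeniusPartition T (cents T) := by
  apply frobenius_of
  · intro g hg x hx hxg
    rw [comm_iff] at hxg
    rw [mem_T] at hx
    rw [hx] at hxg
    have h1 : (1 - (g.a : GaussianInt)) * x.b = 0 := by rw [hxg]; simp
    ext1
    · rw [hx, one_a]
    · rw [one_b]
      exact (mul_eq_zero.1 h1).resolve_left (sub_ne_zero' hg)
  · intro x _ y hy z _ h1 h2
    rw [comm_iff] at h1 h2 ⊢
    apply mul_left_cancel₀ (sub_ne_zero' hy)
    linear_combination (1 - (z.a : GaussianInt)) * h1 + (1 - (x.a : GaussianInt)) * h2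
  · intro g hg h hh h1 x h2
    set k := x⁻¹ * h * x with hk
    have hka : k.a = h.a := by
      rw [hk, mul_a, mul_a, inv_a, mul_comm, ← mul_assoc, mul_inv_cancel, one_mul]
    have h3 : k = h := by
      ext1
      · exact hka
      · rw [comm_iff] at h1 h2
        rw [hka] at h2
        exact mul_left_cancel₀ (sub_ne_zero' hg) (h2.trans h1.symm)
    have h4 : x * h = h * x := by
      have : x * k = h * x := by rw [hk]; group
      rw [← this, h3]
    by_cases hx : x ∈ T
    · -- a translation commuting with `h` is trivial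
      rw [comm_iff] at h4
      rw [mem_T] at hx
      rw [hx] at h4
      have h5 : (1 - (h.a : GaussianInt)) * x.b = 0 := by rw [h4]; simp
      have h6 : x = 1 := by
        ext1
        · rw [hx, one_a]
        · rw [one_b]
          exact (mul_eq_zero.1 h5).resolve_left (sub_ne_zero' hh)
      rw [h6]; simp
    · rw [comm_iff] at h1 h4 ⊢
      apply mul_left_cancel₀ (sub_ne_zero' hh)
      linear_combination (1 - (g.a : GaussianInt)) * h4 + (1 - (x.a : GaussianInt)) * h1

/-- The unit `i`. -/
def I : GaussianIntˣ where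
  val := ⟨0, 1⟩
  inv := ⟨0, -1⟩
  val_inv := by decide
  inv_val := by decide

/-- The rotation `x ↦ i x`. -/
def ρ : Aff := ⟨I, 0⟩

/-- The rotation `x ↦ 1 - x`. -/
def σ : Aff := ⟨-1, 1⟩

theorem ρ_not_mem : ρ ∉ T := by
  rw [mem_T]
  intro h
  have := congrArg (fun u : GaussianIntˣ => (u : GaussianInt)) h
  revert this
  decide

theorem σ_not_mem : σ ∉ T := by
  rw [mem_T]
  intro h
  have := congrArg (fun u : GaussianIntˣ => (u : GaussianInt)) h
  revert this
  decide

theorem ρ_sq : ρ * ρ ≠ 1 := by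
  intro h
  have := congrArg (fun u : Aff => (u.a : GaussianInt)) h
  revert this
  decide

theorem unit_norm (u : GaussianIntˣ) :
    (u : GaussianInt).re * (u : GaussianInt).re + (u : GaussianInt).im * (u : GaussianInt).im = 1 := by
  have h1 := (Zsqrtd.isUnit_iff_norm_isUnit (u : GaussianInt)).1 u.isUnit
  have h2 : 0 ≤ (u : GaussianInt).norm := GaussianInt.norm_nonneg _
  rw [Int.isUnit_iff] at h1
  rw [Zsqrtd.norm_def] at h1 h2
  rcases h1 with h1 | h1
  · linarith
  · linarith

theorem cent_σ_sq (x : Aff) (hx : x * σ = σ * x) : x * x = 1 := by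
  rw [comm_iff] at hx
  have h1 : (2 : GaussianInt) * x.b = 1 - (x.a : GaussianInt) := by
    have : (σ.a : GaussianInt) = -1 := by rfl
    rw [this] at hx
    have hb : σ.b = 1 := rfl
    rw [hb] at hx
    linear_combination hx
  have hn := unit_norm x.a
  have hre : 2 * x.b.re = 1 - (x.a : GaussianInt).re := by
    have := congrArg Zsqrtd.re h1
    simpa using this
  have him : 2 * x.b.im = - (x.a : GaussianInt).im := by
    have := congrArg Zsqrtd.im h1
    simpa using this
  set r := (x.a : GaussianInt).re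
  set s := (x.a : GaussianInt).im
  have hs1 : -1 ≤ s := by nlinarith [mul_self_nonneg r]
  have hs2 : s ≤ 1 := by nlinarith [mul_self_nonneg r]
  have hs : s = 0 := by omega
  have hr1 : -1 ≤ r := by nlinarith [mul_self_nonneg s]
  have hr2 : r ≤ 1 := by nlinarith [mul_self_nonneg s]
  have hr : r = 1 ∨ r = -1 := by
    have : r ≠ 0 := by
      intro h0
      rw [h0, hs] at hn
      simp at hn
    omega
  rcases hr with hr | hr
  · have ha : x.a = 1 := by
      ext1
      apply Zsqrtd.ext
      · exact hr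
      · exact hs
    have hb : x.b = 0 := by
      rw [ha] at h1
      have : (2 : GaussianInt) * x.b = 0 := by rw [h1]; simp
      exact (mul_eq_zero.1 this).resolve_left (by decide)
    ext1
    · rw [mul_a, ha, one_a, one_mul]
    · rw [mul_b, hb, one_b]; simp
  · have ha : x.a = -1 := by
      ext1
      apply Zsqrtd.ext
      · exact hr
      · exact hs
    ext1
    · rw [mul_a, ha, one_a]; simp
    · rw [mul_b, ha, one_b]; simp

theorem not_iso : ¬ Nonempty ((Subgroup.centralizer {ρ} : Subgroup Aff) ≃*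
    (Subgroup.centralizer {σ} : Subgroup Aff)) := by
  rintro ⟨e⟩
  let r : (Subgroup.centralizer {ρ} : Subgroup Aff) := ⟨ρ, mem_cent.2 rfl⟩
  have h1 : e r * e r = 1 := by
    apply Subtype.ext
    have := cent_σ_sq (e r : Aff) (mem_cent.1 (e r).2)
    simpa using this
  rw [← map_mul, ← map_one e] at h1
  have h2 := congrArg Subtype.val (e.injective h1)
  exact ρ_sq h2

instance : Infinite Aff := by
  apply Infinite.of_injective (fun n : ℤ => (⟨1, (n : GaussianInt)⟩ : Aff))
  intro n m h
  have := congrArg Aff.b h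
  simpa using this

theorem cent_ne_bot {g : Aff} (hg : g ∉ T) : Subgroup.centralizer {g} ≠ ⊥ := by
  intro h
  have hc : g ∈ Subgroup.centralizer {g} := mem_cent.2 rfl
  rw [h, Subgroup.mem_bot] at hc
  exact hg (hc ▸ T.one_mem)

theorem nontriv : IsNontrivial T (cents T) := by
  refine ⟨Subgroup.centralizer {ρ}, Set.mem_insert_of_mem _ ⟨ρ, ρ_not_mem, rfl⟩,
    Subgroup.centralizer {σ}, Set.mem_insert_of_mem _ ⟨σ, σ_not_mem, rfl⟩, ?_,
    cent_ne_bot ρ_not_mem, cent_ne_bot σ_not_mem⟩
  intro h
  apply not_iso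
  rw [h]
  exact ⟨MulEquiv.refl _⟩

theorem T_ne_bot : T ≠ ⊥ := by
  intro h
  have h1 : (⟨1, 1⟩ : Aff) ∈ T := rfl
  rw [h, Subgroup.mem_bot] at h1
  have := congrArg Aff.b h1
  exact one_ne_zero this

end Aff

end Pool.Agent.Q93.FP
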